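import Pool.Agent.W428.MOT.Defs
import Pool.Agent.W574.MO.Point

/-!
# Project YJ, piece (Z): from `DenRing` to `ratRing`
-/

set_option autoImplicit false

namespace Pool.Agent.J4H74.YJ

open Pool.Agent.W428.MOT

theorem rat_mono {S S' : Set (ℤ × ℤ)} (h : S ⊆ S') : ratRing ℂ S ≤ ratRing ℂ S' := by
  refine Algebra.adjoin_mono (Set.union_subset_union_right _ ?_)
  rintro g ⟨p, hp, hg⟩
  exact ⟨p, h hp, hg⟩

theorem poly_mem (S : Set (ℤ × ℤ)) (p : Polynomial (MK ℂ)) :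
    (p : PowerSeries (MK ℂ)) ∈ ratRing ℂ S := by
  have hX : (PowerSeries.X : PowerSeries (MK ℂ)) ∈ ratRing ℂ S :=
    Algebra.subset_adjoin (Or.inl rfl)
  have hC : ∀ c : MK ℂ, (PowerSeries.C c : PowerSeries (MK ℂ)) ∈ ratRing ℂ S := fun c =>
    (ratRing ℂ S).algebraMap_mem c
  induction p using Polynomial.induction_on' with
  | add p q hp hq =>
    rw [Polynomial.coe_add]
    exact (ratRing ℂ S).add_mem hp hq
  | monomial n c =>
    rw [← Polynomial.C_mul_X_pow_eq_monomial, Polynomial.coe_mul, Polynomial.coe_C, Polynomial.coe_pow,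
      Polynomial.coe_X]
    exact (ratRing ℂ S).mul_mem (hC c) ((ratRing ℂ S).pow_mem hX n)

/-- the condition -/
def Ok (b : Polynomial ℂ) (S : Finset (ℤ × ℤ)) : Prop :=
  ∀ q ∈ S, q.1 < 0 ∧ 0 < q.2 ∧ b.eval ((q.1 : ℂ) / q.2) = 0

theorem ok_union (b : Polynomial ℂ) (S T : Finset (ℤ × ℤ)) (hS : Ok b S) (hT : Ok b T) :
    Ok b (S ∪ T) := by
  intro q hq
  rcases Finset.mem_union.1 hq with h | h
  · exact hS q h
  · exact hT q h

theorem geo_mem (b : Polynomial ℂ) (u : PowerSeries (MK ℂ)) (a n : ℕ) (ha : 1 ≤ a) (hn : 1 ≤ n)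
    (hK : Pool.Agent.W574.MO.Kb b a n)
    (hu : u * (1 - PowerSeries.C (((Lu ℂ)⁻¹ ^ n : (MK ℂ)ˣ) : MK ℂ) * PowerSeries.X ^ a) = 1) :
    ∃ S : Finset (ℤ × ℤ), Ok b S ∧ u ∈ ratRing ℂ (S : Set (ℤ × ℤ)) := by
  refine ⟨{(-(n : ℤ), (a : ℤ))}, ?_, ?_⟩
  · intro q hq
    rw [Finset.mem_singleton] at hq
    subst hq
    refine ⟨by simp only; omega, by simp only; omega, ?_⟩
    have h : b.eval (-(n : ℂ) / a) = 0 := hK
    simpa using h
  · have h1 : u = geo ℂ (-(n : ℤ)) (a : ℤ) := by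
      have h2 : (1 - PowerSeries.C (((Lu ℂ)⁻¹ ^ n : (MK ℂ)ˣ) : MK ℂ) * PowerSeries.X ^ a) *
          geo ℂ (-(n : ℤ)) (a : ℤ) = 1 := by
        have e : ((Lu ℂ) ^ (-(n : ℤ)) : (MK ℂ)ˣ) = (Lu ℂ)⁻¹ ^ n := by
          rw [zpow_neg, zpow_natCast, inv_pow]
        rw [geo, e, Int.toNat_natCast]
        apply PowerSeries.mul_invOfUnit
        rw [map_sub, map_mul, map_pow, PowerSeries.constantCoeff_X, zero_pow (by omega), mul_zero,
          sub_zero, map_one]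
        rfl
      calc u = u * 1 := (mul_one _).symm
        _ = u * ((1 - PowerSeries.C (((Lu ℂ)⁻¹ ^ n : (MK ℂ)ˣ) : MK ℂ) * PowerSeries.X ^ a) *
          geo ℂ (-(n : ℤ)) (a : ℤ)) := by rw [h2]
        _ = _ := by rw [← mul_assoc, hu, one_mul]
    rw [h1]
    refine Algebra.subset_adjoin (Or.inr ⟨(-(n : ℤ), (a : ℤ)), ?_, rfl⟩)
    simp

theorem t_Z : ∀ (b : Polynomial ℂ) (Z : PowerSeries (MK ℂ)),
    Z ∈ Pool.Agent.W574.MO.DenRing (Lu ℂ) (Pool.Agent.W574.MO.Kb b) →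
    ∃ S : Finset (ℤ × ℤ), (∀ q ∈ S, q.1 < 0 ∧ 0 < q.2 ∧ b.eval ((q.1 : ℂ) / q.2) = 0) ∧
      Z ∈ ratRing ℂ (S : Set (ℤ × ℤ)) := by
  intro b Z hZ
  show ∃ S : Finset (ℤ × ℤ), Ok b S ∧ Z ∈ ratRing ℂ (S : Set (ℤ × ℤ))
  unfold Pool.Agent.W574.MO.DenRing at hZ
  induction hZ using Subring.closure_induction with
  | mem x hx =>
    rcases hx with ⟨p, rfl⟩ | ⟨a, n, ha, hn, hK, hu⟩
    · exact ⟨∅, by intro q hq; simp at hq, poly_mem _ p⟩
    · exact geo_mem b x a n ha hn hK hu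
  | zero => exact ⟨∅, by intro q hq; simp at hq, (ratRing ℂ _).zero_mem⟩
  | one => exact ⟨∅, by intro q hq; simp at hq, (ratRing ℂ _).one_mem⟩
  | add x y _ _ hx hy =>
    obtain ⟨S, hS, hxS⟩ := hx
    obtain ⟨T, hT, hyT⟩ := hy
    refine ⟨S ∪ T, ok_union b S T hS hT, (ratRing ℂ _).add_mem (rat_mono ?_ hxS) (rat_mono ?_ hyT)⟩
    · exact_mod_cast Finset.subset_union_left
    · exact_mod_cast Finset.subset_union_right
  | mul x y _ _ hx hy =>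
    obtain ⟨S, hS, hxS⟩ := hx
    obtain ⟨T, hT, hyT⟩ := hy
    refine ⟨S ∪ T, ok_union b S T hS hT, (ratRing ℂ _).mul_mem (rat_mono ?_ hxS) (rat_mono ?_ hyT)⟩
    · exact_mod_cast Finset.subset_union_left
    · exact_mod_cast Finset.subset_union_right
  | neg x _ hx =>
    obtain ⟨S, hS, hxS⟩ := hx
    exact ⟨S, hS, (ratRing ℂ _).neg_mem hxS⟩

end Pool.Agent.J4H74.YJ
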